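import Pool.Agent.X20.Tr.LogR

/-!
# The logarithmically averaged Chowla conjecture along `⌊α n ^ c⌋`

From Mathlib: `ArithmeticFunction.cardFactors`: the number of prime factors with multiplicity; `dimH E`: the Hausdorff
dimension of `E`; `⌊x⌋₊`: the integer part; `𝓝`: neighbourhoods.
-/

set_option autoImplicit false

namespace Pool.Agent.Results.MP_78b682_nt.AlongDilatedPowers

open Finset Filter Topology
open Pool.Agent.X20.Tr

/-- the Liouville function, `0` at the integers `n ≤ 0` -/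
noncomputable def lam (n : ℤ) : ℝ := if 0 < n then (-1) ^ ArithmeticFunction.cardFactors n.toNat else 0

/-- the logarithmic mean `(1 / log N) ∑ F n / n` over `n ≤ N` -/
noncomputable def logMean (F : ℕ → ℝ) (N : ℕ) : ℝ := (∑ n ∈ Icc 1 N, F n / n) / Real.log N

lemma lam_le (n : ℤ) : |lam n| ≤ 1 := by
  unfold lam
  split_ifs
  · rw [abs_pow, abs_neg, abs_one, one_pow]
  · simp

/-- For every real `c > 1` there are `0 < κ < 1` and a set `E` of real numbers of Hausdorff dimension at most `1 - κ`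
such that for every real `α > 0` outside `E`:

* for all `k` and all integers `h 1, …, h k` and every `ρ`, the logarithmic mean of `λ(n + h 1) ⋯ λ(n + h k)` tends to
  `ρ` if and only if the logarithmic mean of `λ(m_n + h 1) ⋯ λ(m_n + h k)`, `m_n = ⌊α n ^ c⌋`, tends to `ρ`;
* for each `k`: the logarithmically averaged Chowla conjecture for `k` distinct shifts holds if and only if it holds
  along `⌊α n ^ c⌋`. -/
theorem result (c : ℝ) (hc : 1 < c) : ∃ κ : ℝ, 0 < κ ∧ κ < 1 ∧ ∃ E : Set ℝ, dimH E ≤ ENNReal.ofReal (1 - κ) ∧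
    ∀ α : ℝ, 0 < α → α ∉ E →
      (∀ (k : ℕ) (h : Fin k → ℤ) (ρ : ℝ), Tendsto (logMean fun n => ∏ i, lam (n + h i)) atTop (𝓝 ρ) ↔
        Tendsto (logMean fun n => ∏ i, lam (⌊α * (n : ℝ) ^ c⌋₊ + h i)) atTop (𝓝 ρ)) ∧
      ∀ k : ℕ, (∀ h : Fin k → ℤ, Function.Injective h →
          Tendsto (logMean fun n => ∏ i, lam (n + h i)) atTop (𝓝 0)) ↔
        ∀ h : Fin k → ℤ, Function.Injective h →
          Tendsto (logMean fun n => ∏ i, lam (⌊α * (n : ℝ) ^ c⌋₊ + h i)) atTop (𝓝 0) := by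
  obtain ⟨κ, hκ0, hκ1, H⟩ := rlogSparse c hc
  obtain ⟨E, hE, h⟩ := H (Σ k : ℕ, Fin k → ℤ) (fun i n => ∏ j, lam (n + i.2 j)) (fun i n => by
    show |∏ j, lam (n + i.2 j)| ≤ 1
    rw [abs_prod]
    exact prod_le_one (fun _ _ => abs_nonneg _) fun _ _ => lam_le _)
  refine ⟨κ, hκ0, hκ1, E, hE, fun α hα hαE => ?_⟩
  have key : ∀ (k : ℕ) (h : Fin k → ℤ) (ρ : ℝ), Tendsto (logMean fun n => ∏ i, lam (n + h i)) atTop (𝓝 ρ) ↔
      Tendsto (logMean fun n => ∏ i, lam (⌊α * (n : ℝ) ^ c⌋₊ + h i)) atTop (𝓝 ρ) := fun k g ρ =>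
    (h α hα hαE ⟨k, g⟩).1 ρ
  exact ⟨key, fun k => ⟨fun h1 g hg => (key k g 0).1 (h1 g hg), fun h1 g hg => (key k g 0).2 (h1 g hg)⟩⟩

end Pool.Agent.Results.MP_78b682_nt.AlongDilatedPowers
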